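import Pool.Agent.Lib.MP_af3d17_nt_h98.Seq
import Pool.Agent.Lib.MP_af3d17_nt_h98.Pair
import Pool.Agent.Lib.MP_af3d17_nt_h98.Speiser1
import Pool.Agent.Lib.MP_af3d17_nt_h98.Speiser2

/-!
# MP_af3d17_nt: `2 α = θ`, the exponent of the zeros of `ζ'` nearest to the critical line
-/

set_option autoImplicit false

namespace Pool.Agent.Results.MP_af3d17_nt.DerivativeZeros

open Filter Topology

/-- The nontrivial zeros of the Riemann zeta function with positive ordinate. -/
def IsUpperZero (ρ : ℂ) : Prop := riemannZeta ρ = 0 ∧ 0 < ρ.re ∧ ρ.re < 1 ∧ 0 < ρ.im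

/-- `γ 0 ≤ γ 1 ≤ γ 2 ≤ ⋯` are the ordinates of the nontrivial zeros with positive ordinate, each
repeated according to multiplicity: every real number `t` occurs in the sequence as many times as
there are pairs `(ρ, k)` with `ρ` such a zero of ordinate `t` and `k` smaller than its order.
(`γ n` is the number `γ_{n+1}` of the problem.) -/
structure IsOrdinateSeq (γ : ℕ → ℝ) : Prop where
  mono : Monotone γ
  count : ∀ t : ℝ, {n | γ n = t}.encard = {p : ℂ × ℕ | IsUpperZero p.1 ∧ p.1.im = t ∧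
    (p.2 : ℕ∞) < analyticOrderAt riemannZeta p.1}.encard

/-- `log (γ_{n+2} - γ_{n+1}) / log (n + 1)`, with `log 0 = -∞`. -/
noncomputable def gapExponent (γ : ℕ → ℝ) (n : ℕ) : EReal :=
  if γ (n + 1) = γ n then ⊥ else ((Real.log (γ (n + 1) - γ n) / Real.log (n + 1) : ℝ) : EReal)

/-- The exponent `α` of the problem. -/
noncomputable def alpha (γ : ℕ → ℝ) : EReal := liminf (gapExponent γ) atTop

/-- `log (Re ρ - 1/2) / log (Im ρ)`, with `log x = -∞` for `x ≤ 0`. -/
noncomputable def derivExponent (ρ : ℂ) : EReal :=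
  if ρ.re ≤ 1 / 2 then ⊥ else ((Real.log (ρ.re - 1 / 2) / Real.log ρ.im : ℝ) : EReal)

/-- The zeros of `ζ'` with ordinate tending to `+∞`. -/
noncomputable def derivZeros : Filter ℂ :=
  comap Complex.im atTop ⊓ 𝓟 {ρ | deriv riemannZeta ρ = 0}

/-- The exponent `θ`: the liminf of `log (Re ρ' - 1/2) / log (Im ρ')` over the zeros `ρ'` of `ζ'`,
as `Im ρ' → +∞`. -/
noncomputable def theta : EReal := liminf derivExponent derivZeros

/-- `2 α = θ`, unconditionally; moreover `ζ'` has zeros of arbitrarily large ordinate, so that `θ`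
is a liminf along a nontrivial filter. -/
theorem result (γ : ℕ → ℝ) (hγ : IsOrdinateSeq γ) : 2 * alpha γ = theta ∧ derivZeros.NeBot := by
  have hγ' : ZP.IsOrdinateSeq γ := ⟨hγ.mono, hγ.count⟩
  refine ⟨?_, ?_⟩
  · change 2 * ZP.alpha γ = ZP.theta
    by_cases h : ∃ T0 : ℝ, ZP.RH T0
    · obtain ⟨T0, h⟩ := h
      obtain ⟨T1, hD⟩ := ZP.dh_of_rh h
      refine le_antisymm (ZP.two_alpha_le hγ' h hD) (ZP.theta_le_two_alpha hγ' h hD ?_)
      exact ZP.PairAux.deriv_zero_of_pair_of (@ZP.re_logDeriv_line) ZP.Lam_strip ZP.local_zeta h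
    · have h1 : ZP.alpha γ = ⊥ := by
        by_contra hcon
        exact h (ZP.rh_of_alpha hγ' hcon)
      have h2 : ZP.theta = ⊥ := by
        by_contra hcon
        have h3 : (⊥ : EReal) < ZP.theta := bot_lt_iff_ne_bot.2 hcon
        rw [ZP.theta_eq] at h3
        obtain ⟨T, hT⟩ := ZP.dz_eventually.1 (eventually_lt_of_lt_liminf h3)
        refine h (ZP.rh_of_dh (T0 := T) fun ρ h4 h5 => ?_)
        have h6 := hT ρ h5.le h4
        rw [ZP.derivExponent] at h6
        by_contra h7
        rw [if_pos (not_lt.1 h7)] at h6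
        exact lt_irrefl _ h6
      rw [h1, h2]
      exact EReal.mul_bot_of_pos (by norm_num)
  · change ZP.dz.NeBot
    rw [ZP.dz_basis.neBot_iff]
    intro T _
    obtain ⟨T1, h1⟩ := ZP.exists_deriv_zero
    obtain ⟨ρ, h2, -, -, h3⟩ := h1 (max T1 T + 10) (by linarith [le_max_left T1 T])
    have h4 := abs_le.1 h3
    refine ⟨ρ, ?_, h2⟩
    change T ≤ ρ.im
    linarith [le_max_right T1 T]

end Pool.Agent.Results.MP_af3d17_nt.DerivativeZeros
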