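import Pool.Agent.Lib.MP_af3d17_nt_h68.B1

/-!
# MP_af3d17_nt: small gaps between zeros of `ζ` and zeros of `ζ'` near the line, a bijection
-/

set_option autoImplicit false

namespace Pool.Agent.Results.MP_af3d17_nt.GapBijection

open Filter Topology

/-- The nontrivial zeros of the Riemann zeta function with positive ordinate. -/
def IsUpperZero (ρ : ℂ) : Prop := riemannZeta ρ = 0 ∧ 0 < ρ.re ∧ ρ.re < 1 ∧ 0 < ρ.im

/-- `γ 0 ≤ γ 1 ≤ γ 2 ≤ ⋯` are the ordinates of the nontrivial zeros with positive ordinate, each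
repeated according to multiplicity: every real number `t` occurs in the sequence as many times as
there are pairs `(ρ, k)` with `ρ` such a zero of ordinate `t` and `k` smaller than its order.
(`γ n` is the number `γ_{n+1}` of the problem.) -/
structure IsOrdinateSeq (γ : ℕ → ℝ) : Prop where
  mono : Monotone γ
  count : ∀ t : ℝ, {n | γ n = t}.encard = {p : ℂ × ℕ | IsUpperZero p.1 ∧ p.1.im = t ∧
    (p.2 : ℕ∞) < analyticOrderAt riemannZeta p.1}.encard

/-- No zero off the critical line has an ordinate at distance at most `r` from `t`. -/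
def LocalRH (r t : ℝ) : Prop := ∀ ρ : ℂ, IsUpperZero ρ → |ρ.im - t| ≤ r → ρ.re = 1 / 2

/-- The zeros of `ζ'` over the gap `(γ n, γ (n+1))`, at distance at most `1 / (C log γ n)` from the
critical line. -/
def boxZeros (C : ℝ) (γ : ℕ → ℝ) (n : ℕ) : Set ℂ :=
  {s | deriv riemannZeta s = 0 ∧ γ n < s.im ∧ s.im < γ (n + 1) ∧
    |s.re - 1 / 2| ≤ 1 / (C * Real.log (γ n))}

/-- Short gaps and zeros of `ζ'` near the line, wherever no zero off the line is near. -/
theorem result (γ : ℕ → ℝ) (hγ : IsOrdinateSeq γ) (ε : ℝ) (hε : 0 < ε) :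
    ∃ C C' T : ℝ, 1 ≤ C ∧ 1 ≤ C' ∧ 100 ≤ T ∧
    (∀ n : ℕ, T ≤ γ n → LocalRH 5 (γ n) → γ n < γ (n + 1) →
      γ (n + 1) - γ n ≤ 1 / (C * Real.log (γ n)) →
      ∃ s : ℂ, boxZeros C γ n = {s} ∧ deriv (deriv riemannZeta) s ≠ 0 ∧
        (γ (n + 1) - γ n) ^ 2 / (C * Real.log (γ n)) ≤ s.re - 1 / 2 ∧
        s.re - 1 / 2 ≤ (1 / 16 + ε) * Real.log (γ n) * (γ (n + 1) - γ n) ^ 2) ∧
    (∀ s : ℂ, T + 1 ≤ s.im → LocalRH 6 s.im → deriv riemannZeta s = 0 → riemannZeta s ≠ 0 →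
      |s.re - 1 / 2| ≤ 1 / (C' * Real.log s.im ^ 3) →
      ∃ n : ℕ, T ≤ γ n ∧ LocalRH 5 (γ n) ∧ γ n < γ (n + 1) ∧
        γ (n + 1) - γ n ≤ 1 / (C * Real.log (γ n)) ∧ boxZeros C γ n = {s}) := by
  have hγ' : ZP.IsOrdinateSeq γ := ⟨hγ.mono, hγ.count⟩
  obtain ⟨C, C', T, hC, hC', hT, h1, h2⟩ := ZPD.bijection hγ' hε
  have hC0 : 0 < C := by linarith
  have key : ∀ n : ℕ, T + 2 ≤ γ n → LocalRH 5 (γ n) → γ n < γ (n + 1) →
      γ (n + 1) - γ n ≤ 1 / (C * Real.log (γ n)) →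
      ∃ s : ℂ, boxZeros C γ n = {s} ∧ deriv (deriv riemannZeta) s ≠ 0 ∧
        (γ (n + 1) - γ n) ^ 2 / (C * Real.log (γ n)) ≤ s.re - 1 / 2 ∧
        s.re - 1 / 2 ≤ (1 / 16 + ε) * Real.log (γ n) * (γ (n + 1) - γ n) ^ 2 := by
    intro n hn hloc hlt hgap
    have hL : 1 ≤ Real.log (γ n) := by
      rw [Real.le_log_iff_exp_le (by linarith)]
      linarith [Real.exp_one_lt_d9]
    have hCL : 0 < C * Real.log (γ n) := by positivity
    have hg0 : 0 < γ (n + 1) - γ n := by linarith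
    have hgap' : C * Real.log (γ n) * (γ (n + 1) - γ n) ≤ 1 := by
      rw [le_div_iff₀ hCL] at hgap
      linarith [mul_comm (γ (n + 1) - γ n) (C * Real.log (γ n))]
    obtain ⟨s, ⟨a1, a2, a3, a4, a5, a6, a7⟩, a8⟩ := h1 n (by linarith) hloc hlt hgap'
    refine ⟨s, ?_, a4, ?_, a7⟩
    · apply Set.eq_singleton_iff_unique_mem.2
      refine ⟨⟨a3, a1, a2, ?_⟩, ?_⟩
      · rw [le_div_iff₀ hCL]
        exact a5
      · rintro s' ⟨b1, b2, b3, b4⟩
        rw [le_div_iff₀ hCL] at b4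
        exact a8 s' b2 b3 b4 b1
    · rw [div_le_iff₀ hCL]
      linarith [mul_comm (s.re - 1 / 2) (C * Real.log (γ n))]
  refine ⟨C, max C C', T + 2, hC, hC.trans (le_max_left _ _), by linarith, key, ?_⟩
  intro s hs hloc hd hζ hx
  have hL : 1 ≤ Real.log s.im := by
    rw [Real.le_log_iff_exp_le (by linarith)]
    linarith [Real.exp_one_lt_d9]
  have hCL4 : 0 < max C C' * Real.log s.im ^ 3 := by
    have : 0 < max C C' := lt_of_lt_of_le hC0 (le_max_left _ _)
    positivity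
  rw [le_div_iff₀ hCL4] at hx
  have hx' : |s.re - 1 / 2| * (C' * Real.log s.im ^ 3) ≤ 1 := by
    refine le_trans ?_ hx
    gcongr
    exact le_max_right _ _
  have hx2 : |s.re - 1 / 2| * (C * Real.log s.im ^ 3) ≤ 1 := by
    refine le_trans ?_ hx
    gcongr
    exact le_max_left _ _
  have hloc5 : LocalRH 5 s.im := fun ρ hρ hd => hloc ρ hρ (by linarith)
  obtain ⟨n, b0, b1, b2, b3⟩ := h2 s (by linarith) hloc5 hd hζ hx'
  have hlocn : LocalRH 5 (γ n) := by
    intro ρ hρ hρd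
    refine hloc ρ hρ ?_
    rw [abs_le] at hρd ⊢
    constructor <;> linarith
  have hLn : 1 ≤ Real.log (γ n) := by
    rw [Real.le_log_iff_exp_le (by linarith)]
    linarith [Real.exp_one_lt_d9]
  have hLs : Real.log (γ n) ≤ Real.log s.im := Real.log_le_log (by linarith) b1.le
  have hL14 : Real.log s.im ≤ Real.log s.im ^ 3 := by
    have h3 : Real.log s.im ^ 3 = Real.log s.im ^ 2 * Real.log s.im := by ring
    rw [h3]
    exact le_mul_of_one_le_left (by linarith) (one_le_pow₀ hL)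
  have hCL : 0 < C * Real.log (γ n) := by positivity
  have hgap : γ (n + 1) - γ n ≤ 1 / (C * Real.log (γ n)) := by
    rw [le_div_iff₀ hCL]
    linarith [mul_comm (γ (n + 1) - γ n) (C * Real.log (γ n))]
  have hmem : s ∈ boxZeros C γ n := by
    refine ⟨hd, b1, b2, ?_⟩
    rw [le_div_iff₀ hCL]
    refine le_trans ?_ hx2
    have h4 : C * Real.log (γ n) ≤ C * Real.log s.im ^ 3 := by
      gcongr
      linarith
    gcongr
  have hlt : γ n < γ (n + 1) := b1.trans b2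
  obtain ⟨s0, h0, -, -, -⟩ := key n (by linarith) hlocn hlt hgap
  refine ⟨n, by linarith, hlocn, hlt, hgap, ?_⟩
  rw [h0] at hmem ⊢
  rw [Set.mem_singleton_iff.1 hmem]

end Pool.Agent.Results.MP_af3d17_nt.GapBijection
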